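import Pool.Agent.MT100D.Stmts
import Pool.Agent.Helper83_MT.Sys

/-! MT100-D, module D_SYS: tensor products of systems with rational exponents. -/

set_option autoImplicit false

namespace Pool.Agent.MT100D.H83

open Matrix Polynomial Pool.Agent.MT100 Pool.Agent.MT100D

section kdl

variable {ι m : Type} [Fintype ι] [Fintype m] [DecidableEq ι] [DecidableEq m]
variable {R : Type} [CommRing R]

/-- the exponents of a tensor product -/
def krd (δ : ι → m → ℚ) : (ι → m) → ℚ := fun β => ∑ s, δ s (β s)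

theorem kd_one_apply (A : ι → Matrix m m R) (β α : ι → m) :
    MT100.H83.kd (fun _ => 1) A β α =
      ∑ s, A s (β s) (α s) * ∏ t ∈ Finset.univ.erase s, (1 : Matrix m m R) (β t) (α t) := by
  unfold MT100.H83.kd
  rw [Matrix.sum_apply]
  refine Finset.sum_congr rfl fun s _ => ?_
  rw [MT100.H83.kr_update_apply]

theorem prod_one_ne {s : ι} {β α : ι → m}
    (h : ∏ t ∈ Finset.univ.erase s, (1 : Matrix m m R) (β t) (α t) ≠ 0) :
    ∀ t, t ≠ s → β t = α t := by
  intro t hts
  by_contra hne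
  apply h
  exact Finset.prod_eq_zero (Finset.mem_erase.2 ⟨hts, Finset.mem_univ t⟩)
    (Matrix.one_apply_ne hne)

theorem kd_add (A A' : ι → Matrix m m R) :
    MT100.H83.kd (fun _ => 1) (fun s => A s + A' s) =
      MT100.H83.kd (fun _ => 1) A + MT100.H83.kd (fun _ => 1) A' := by
  ext β α
  rw [Matrix.add_apply, kd_one_apply, kd_one_apply, kd_one_apply, ← Finset.sum_add_distrib]
  refine Finset.sum_congr rfl fun s _ => ?_
  rw [Matrix.add_apply, add_mul]

theorem kd_diag (δ : ι → m → ℚ) :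
    MT100.H83.kd (fun _ => 1) (fun s => diagonal (δ s)) = diagonal (krd δ) := by
  ext β α
  rw [kd_one_apply]
  by_cases h : β = α
  · subst h
    rw [Matrix.diagonal_apply_eq]
    unfold krd
    refine Finset.sum_congr rfl fun s _ => ?_
    rw [Matrix.diagonal_apply_eq, Finset.prod_eq_one, mul_one]
    intro t _
    exact Matrix.one_apply_eq _
  · rw [Matrix.diagonal_apply_ne _ h]
    refine Finset.sum_eq_zero fun s _ => ?_
    by_cases h1 : ∏ t ∈ Finset.univ.erase s, (1 : Matrix m m ℚ) (β t) (α t) = 0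
    · rw [h1, mul_zero]
    · have h2 := prod_one_ne h1
      have h3 : β s ≠ α s := by
        intro h4
        apply h
        funext t
        by_cases h5 : t = s
        · rw [h5]
          exact h4
        · exact h2 t h5
      rw [Matrix.diagonal_apply_ne _ h3, zero_mul]

theorem kd_com (N : ι → Matrix m m ℤ) (δ : ι → m → ℚ)
    (h : ∀ s i j, N s i j ≠ 0 → δ s i = δ s j) (β α : ι → m)
    (hN : MT100.H83.kd (fun _ => 1) N β α ≠ 0) : krd δ β = krd δ α := by
  rw [kd_one_apply] at hN
  obtain ⟨s, _, hs⟩ := Finset.exists_ne_zero_of_sum_ne_zero hN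
  have h1 := prod_one_ne (right_ne_zero_of_mul hs)
  have h2 := h s _ _ (left_ne_zero_of_mul hs)
  unfold krd
  refine Finset.sum_congr rfl fun t _ => ?_
  by_cases h3 : t = s
  · rw [h3]
    exact h2
  · rw [h1 t h3]

theorem aa_kd (N : ι → Matrix m m ℤ) (δ : ι → m → ℚ) :
    AA (MT100.H83.kd (fun _ => 1) N) (krd δ) =
      MT100.H83.kd (fun _ => 1) (fun s => AA (N s) (δ s)) := by
  have h1 : (MT100.H83.kd (fun _ => 1) N).map (fun x : ℤ => (x : ℚ)) =
      MT100.H83.kd (fun _ => 1) fun s => (N s).map (fun x : ℤ => (x : ℚ)) :=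
    (MT100.H83.kd_map (Int.castRingHom ℚ) N).symm
  unfold AA
  rw [h1, ← kd_diag, ← kd_add]

end kdl

theorem gsysw_kr {ι m : Type} [Fintype ι] [Fintype m] [DecidableEq ι] [DecidableEq m]
    {H K : ι → Matrix m m (PowerSeries ℚ)} {N : ι → Matrix m m ℤ} {δ : ι → m → ℚ}
    {q : ι → Polynomial ℤ} {B : ι → Matrix m m (Polynomial ℤ)}
    (h : ∀ s, GSysW (H s) (K s) (N s) (δ s) (q s) (B s)) :
    GSysW (kr H) (kr K) (MT100.H83.kd (fun _ => 1) N) (krd δ) (∏ s, q s)
      (MT100.H83.kd (fun _ => 1) fun s => (∏ t ∈ Finset.univ.erase s, q t) • B s) := by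
  have hg := Helper5_MT100.gcl
  refine ⟨?_, MT100.H83.kd_nil N fun s => (h s).nil, fun i j hN => kd_com N δ (fun s => (h s).com) i j hN,
    Finset.prod_ne_zero_iff.2 fun s _ => (h s).q0, ?_,
    fun i j => hg.2.2.2.2.2 ι _ _ fun s _ => (h s).gH _ _,
    fun i j => hg.2.2.2.2.2 ι _ _ fun s _ => (h s).gK _ _⟩
  · rw [← MT100.H83.kr_mul]
    have h1 : (fun s => H s * K s) = fun _ => (1 : Matrix m m (PowerSeries ℚ)) :=
      funext fun s => (h s).inv
    rw [h1]
    exact Helper26_MT100.krn.2.1 ι m _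
  · have hode : ∀ s, (zp (∏ t, q t) * PowerSeries.X) • (H s).map dv =
        ((∏ t ∈ Finset.univ.erase s, q t) • B s).map zp * H s -
          zp (∏ t, q t) • (H s * (AA (N s) (δ s)).map (fun x => PowerSeries.C x)) := by
      intro s
      have e1 : zp (∏ t, q t) = zp (∏ t ∈ Finset.univ.erase s, q t) * zp (q s) := by
        rw [← MT100.H83.zpH_apply, ← MT100.H83.zpH_apply, ← MT100.H83.zpH_apply, ← map_mul, mul_comm,
          Finset.mul_prod_erase _ _ (Finset.mem_univ s)]
      have e2 : ((∏ t ∈ Finset.univ.erase s, q t) • B s).map zp =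
          zp (∏ t ∈ Finset.univ.erase s, q t) • (B s).map zp := by
        ext1 i j
        rw [Matrix.map_apply, Matrix.smul_apply, Matrix.smul_apply, Matrix.map_apply, smul_eq_mul,
          smul_eq_mul, ← MT100.H83.zpH_apply, map_mul]
        rfl
      rw [e1, e2, mul_assoc, mul_smul, (h s).ode, smul_sub, Matrix.smul_mul, mul_smul]
    have h1 : (MT100.H83.kd (fun _ => 1) fun s => (∏ t ∈ Finset.univ.erase s, q t) • B s).map zp =
        MT100.H83.kd (fun _ => 1) fun s => ((∏ t ∈ Finset.univ.erase s, q t) • B s).map zp :=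
      (MT100.H83.kd_map MT100.H83.zpH fun s => (∏ t ∈ Finset.univ.erase s, q t) • B s).symm
    have h2 : (AA (MT100.H83.kd (fun _ => 1) N) (krd δ)).map (fun x => PowerSeries.C x) =
        MT100.H83.kd (fun _ => 1) fun s => (AA (N s) (δ s)).map (fun x => PowerSeries.C x) := by
      rw [aa_kd]
      exact (MT100.H83.kd_map (PowerSeries.C (R := ℚ)) fun s => AA (N s) (δ s)).symm
    rw [MT100.H83.dv_kr, h1, h2, ← MT100.H83.kd_mul_left, ← MT100.H83.kd_mul_right,
      ← MT100.H83.kd_smul, ← MT100.H83.kd_smul, ← MT100.H83.kd_sub]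
    congr 1
    funext s
    exact hode s

/-- SYSD: tensor products of systems -/
theorem sysD : SysDStmt := by
  intro ι m _ _ _ _ H h
  choose K N δ q B h using h
  exact ⟨kr K, _, _, _, _, gsysw_kr h⟩

end Pool.Agent.MT100D.H83
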